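import Pool.Agent.K1H1.GT.Stmt

/-!
# The Gelfand–Tsetlin degree of the Verma module `M(-ρ)` of `gl(n)`

The definitions (`U`, `E`, `Usub`, `Zc`, `Gam`, `Verma`, `rho`, `genSpace`, `GTdeg`) are in
`Pool/Agent/K1H1/GT/Stmt.lean`.
-/

set_option autoImplicit false

namespace Pool.Agent.Results.MP_b5066f_al.VermaDegree

open Pool.Agent.K1H1.GLn

/-- For every `n ≥ 2` the Gelfand–Tsetlin degree of the Verma module `M(-ρ)` of `gl(n)` is
`0! · 1! · 2! ⋯ (n-1)!`. -/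
theorem result (n : ℕ) (_hn : 2 ≤ n) :
    GTdeg (-rho n) = ((∏ k ∈ Finset.range n, k.factorial : ℕ) : Cardinal) :=
  (GTdeg_eq (-rho n)).trans (Pool.Agent.K1H1.GT.main n)

end Pool.Agent.Results.MP_b5066f_al.VermaDegree
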